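import Pool.Agent.E8helper58.CM.Basic

set_option autoImplicit false

namespace Pool.Agent.E8helper63.CM

open Pool.Agent.W907.SG Pool.Agent.W907.SM
open Pool.Agent.TH652.Dual (triv Sph)
open Pool.Agent.R781.VS (con con_clique_n)
open Pool.Agent.E8helper58.CM

theorem con_adj {V : Type} {G : SimpleGraph V} {s t x y : V} :
    (con G s t).Adj x y ↔ x ≠ y ∧ x ≠ t ∧ y ≠ t ∧ (G.Adj x y ∨ (x = s ∧ G.Adj t y) ∨ (y = s ∧ G.Adj t x)) :=
  Iff.rfl

theorem mem_lk {V : Type} {G : SimpleGraph V} {S : Finset V} {x : V} : x ∈ lk G S ↔ ∀ u ∈ S, G.Adj x u := Iff.rfl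

theorem NoSqA_mono {V : Type} {G : SimpleGraph V} {A B : Set V} {s t : V} (h : NoSqA G A s t) (hB : B ⊆ A) :
    NoSqA G B s t := fun x hx y hy => h x (hB hx) y (hB hy)

theorem t_CONA (h1 : S_CONEQ) (h2 : S_DEL) (h3 : S_CONE0) : S_CONA := by
  intro V _ _ G A n s t hS hs ht hst hsq S hcl hSA hsS i
  have htS : t ∉ S := fun h => (hSA h).2 rfl
  have hclG : G.IsClique (S : Set V) := (con_clique_n hsS htS).1 hcl
  have hSA' : (S : Set V) ⊆ A := fun x hx => (hSA hx).1
  have hL := hS S hclG hSA' i
  rw [← hL]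
  -- membership in the two links
  have hne : s ≠ t := hst.ne
  have key : ∀ x, x ≠ s → x ≠ t → (x ∈ lk (con G s t) S ↔ x ∈ lk G S) := by
    intro x hxs hxt
    rw [mem_lk, mem_lk]
    refine forall₂_congr fun u hu => ?_
    rw [con_adj]
    have hus : u ≠ s := fun e => hsS (e ▸ hu)
    have hut : u ≠ t := fun e => htS (e ▸ hu)
    constructor
    · rintro ⟨-, -, -, h | h | h⟩
      · exact h
      · exact absurd h.1 hxs
      · exact absurd h.1 hus
    · intro h
      exact ⟨h.ne, hxt, hut, Or.inl h⟩
  have keys : s ∈ lk (con G s t) S ↔ ∀ u ∈ S, G.Adj s u ∨ G.Adj t u := by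
    rw [mem_lk]
    refine forall₂_congr fun u hu => ?_
    rw [con_adj]
    have hus : u ≠ s := fun e => hsS (e ▸ hu)
    have hut : u ≠ t := fun e => htS (e ▸ hu)
    constructor
    · rintro ⟨-, -, -, h | h | h⟩
      · exact Or.inl h
      · exact Or.inr h.2
      · exact absurd h.1 hus
    · rintro (h | h)
      · exact ⟨hus.symm, hne, hut, Or.inl h⟩
      · exact ⟨hus.symm, hne, hut, Or.inr (Or.inl ⟨rfl, h⟩)⟩
  by_cases hsL : s ∈ lk G S
  · have hs' : s ∈ lk (con G s t) S := keys.2 (fun u hu => Or.inl (mem_lk.1 hsL u hu))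
    by_cases htL : t ∈ lk G S
    · -- (1)
      have e : (A \ {t}) ∩ lk (con G s t) S = (A ∩ lk G S) \ {t} := by
        ext x
        simp only [Set.mem_inter_iff, Set.mem_sdiff, Set.mem_singleton_iff]
        by_cases hxt : x = t
        · subst hxt; simp
        by_cases hxs : x = s
        · subst hxs; simp only [hs', hsL, hxt]; tauto
        rw [key x hxs hxt]; tauto
      rw [e]
      exact h1 V G (A ∩ lk G S) s t ⟨hs, hsL⟩ ⟨ht, htL⟩ hst (NoSqA_mono hsq Set.inter_subset_left) i
    · -- (2)
      have e : (A \ {t}) ∩ lk (con G s t) S = A ∩ lk G S := by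
        ext x
        simp only [Set.mem_inter_iff, Set.mem_sdiff, Set.mem_singleton_iff]
        by_cases hxt : x = t
        · subst hxt; simp [htL]
        by_cases hxs : x = s
        · subst hxs; simp only [hs', hsL, hxt]; tauto
        rw [key x hxs hxt]; tauto
      rw [e]
      obtain ⟨u, hu, hut⟩ : ∃ u ∈ S, ¬ G.Adj t u := by
        rw [mem_lk] at htL; push Not at htL; exact htL
      have hF : ∀ x ∈ A ∩ lk G S, x ≠ s → G.Adj t x → G.Adj s x := by
        intro x hx hxs htx
        by_contra hcon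
        exact hsq u (hSA' hu) x hx.1 (mem_lk.1 hsL u hu) hut (fun e => htS (e ▸ hu)) htx hcon hxs
          (mem_lk.1 hx.2 u hu).symm
      apply beta_congr
      intro x hx y hy
      have hxt : x ≠ t := fun e => htL (e ▸ hx.2)
      have hyt : y ≠ t := fun e => htL (e ▸ hy.2)
      rw [con_adj]
      constructor
      · rintro ⟨hxy, -, -, h | ⟨rfl, h⟩ | ⟨rfl, h⟩⟩
        · exact h
        · exact hF y hy hxy.symm h
        · exact (hF x hx hxy h).symm
      · intro h
        exact ⟨h.ne, hxt, hyt, Or.inl h⟩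
  · obtain ⟨u, hu, hus⟩ : ∃ u ∈ S, ¬ G.Adj s u := by
      rw [mem_lk] at hsL; push Not at hsL; exact hsL
    by_cases htL : t ∈ lk G S
    · -- (3)
      have hs' : s ∈ lk (con G s t) S := keys.2 (fun u hu => Or.inr (mem_lk.1 htL u hu))
      have hF : ∀ x ∈ A ∩ lk G S, x ≠ t → G.Adj s x → G.Adj t x := by
        intro x hx hxt hsx
        by_contra hcon
        exact hsq x hx.1 u (hSA' hu) hsx hcon hxt (mem_lk.1 htL u hu) hus (fun e => hsS (e ▸ hu))
          (mem_lk.1 hx.2 u hu)
      have hsub : insert s (A ∩ lk G S) ⊆ A := Set.insert_subset hs Set.inter_subset_left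
      have e : (A \ {t}) ∩ lk (con G s t) S = (insert s (A ∩ lk G S)) \ {t} := by
        ext x
        simp only [Set.mem_inter_iff, Set.mem_sdiff, Set.mem_singleton_iff, Set.mem_insert_iff]
        by_cases hxt : x = t
        · subst hxt; simp
        by_cases hxs : x = s
        · subst hxs; simp only [hs', hxt]; tauto
        rw [key x hxs hxt]; tauto
      rw [e]
      rw [h1 V G (insert s (A ∩ lk G S)) s t (Set.mem_insert _ _) (Set.mem_insert_of_mem _ ⟨ht, htL⟩) hst
        (NoSqA_mono hsq hsub) i]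
      have e2 : (insert s (A ∩ lk G S)) \ {s} = A ∩ lk G S := by
        ext x
        simp only [Set.mem_inter_iff, Set.mem_sdiff, Set.mem_singleton_iff, Set.mem_insert_iff]
        by_cases hxs : x = s
        · subst hxs; simp only [hsL]; tauto
        tauto
      have h4 := h2 V G (insert s (A ∩ lk G S)) s (Set.mem_insert _ _) (by
        intro j
        refine h3 V G ((insert s (A ∩ lk G S)) ∩ G.neighborSet s) t ⟨Set.mem_insert_of_mem _ ⟨ht, htL⟩, hst⟩ ?_ j
        rintro x ⟨hx1, hx2⟩ hxt
        have hsx : G.Adj s x := hx2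
        rcases hx1 with rfl | hx1
        · exact absurd hsx (G.loopless.irrefl _)
        · exact hF x hx1 hxt hsx) i
      rw [e2] at h4
      exact h4.symm
    · -- (4)
      obtain ⟨w, hw, hwt⟩ : ∃ w ∈ S, ¬ G.Adj t w := by
        rw [mem_lk] at htL; push Not at htL; exact htL
      have hs' : s ∉ lk (con G s t) S := by
        intro h
        have h5 := (keys.1 h u hu).resolve_left hus
        have h6 := (keys.1 h w hw).resolve_right hwt
        have hne' : w ≠ u := by
          rintro rfl
          exact hus h6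
        exact hsq w (hSA' hw) u (hSA' hu) h6 hwt (fun e => htS (e ▸ hw)) h5 hus (fun e => hsS (e ▸ hu))
          (hclG hw hu hne')
      have e : (A \ {t}) ∩ lk (con G s t) S = A ∩ lk G S := by
        ext x
        simp only [Set.mem_inter_iff, Set.mem_sdiff, Set.mem_singleton_iff]
        by_cases hxt : x = t
        · subst hxt; simp [htL]
        by_cases hxs : x = s
        · subst hxs; simp [hs', hsL]
        rw [key x hxs hxt]; tauto
      rw [e]
      apply beta_congr
      intro x hx y hy
      have hxt : x ≠ t := fun e => htL (e ▸ hx.2)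
      have hyt : y ≠ t := fun e => htL (e ▸ hy.2)
      have hxs : x ≠ s := fun e => hsL (e ▸ hx.2)
      have hys : y ≠ s := fun e => hsL (e ▸ hy.2)
      rw [con_adj]
      constructor
      · rintro ⟨hxy, -, -, h | h | h⟩
        · exact h
        · exact absurd h.1 hxs
        · exact absurd h.1 hys
      · intro h
        exact ⟨h.ne, hxt, hyt, Or.inl h⟩

end Pool.Agent.E8helper63.CM
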