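import Pool.Agent.E8helper58.CM.Basic

set_option autoImplicit false

namespace Pool.Agent.E8helper63.CM

open Pool.Agent.W907.SG Pool.Agent.W907.SM
open Pool.Agent.TH652.Dual (triv Sph mem_KK_triv)
open Pool.Agent.R781.VS (con sgn_ne clique_insert_iff)
open Pool.Agent.E8helper58.CM

variable {V : Type} [Fintype V] [LinearOrder V]

open Classical in
/-- the cone over a chain -/
noncomputable def cn (v : V) (z : Finset V → ℝ) (U : Finset V) : ℝ :=
  if v ∈ U then sg v (U.erase v) • z (U.erase v) else 0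

theorem cn_in (v : V) (z : Finset V → ℝ) {T : Finset V} (h : v ∉ T) :
    cn v z (insert v T) = sg v T • z T := by
  unfold cn
  rw [if_pos (Finset.mem_insert_self _ _), Finset.erase_insert h]

theorem cn_out (v : V) (z : Finset V → ℝ) {T : Finset V} (h : v ∉ T) : cn v z T = 0 := by
  unfold cn
  rw [if_neg h]

theorem bd_cn (v : V) (z : Finset V → ℝ) (hz : bd ℝ z = 0) : bd ℝ (cn v z) = z := by
  classical
  funext T
  by_cases hv : v ∈ T
  · obtain ⟨T0, hT0, rfl⟩ : ∃ T0, v ∉ T0 ∧ T = insert v T0 :=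
      ⟨T.erase v, Finset.notMem_erase _ _, (Finset.insert_erase hv).symm⟩
    have h0 := congrFun hz T0
    rw [bd_apply, Pi.zero_apply] at h0
    have hvc : v ∈ T0ᶜ := by simpa using hT0
    rw [← Finset.add_sum_erase _ _ hvc] at h0
    rw [bd_apply]
    have hset : (insert v T0)ᶜ = T0ᶜ.erase v := by
      ext u; simp only [Finset.mem_compl, Finset.mem_insert, Finset.mem_erase]; tauto
    rw [hset]
    have h1 : ∀ u ∈ T0ᶜ.erase v, sg u (insert v T0) • cn v z (insert u (insert v T0)) =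
        (- sg v T0) • (sg u T0 • z (insert u T0)) := by
      intro u hu
      simp only [Finset.mem_erase, Finset.mem_compl] at hu
      have hvu : v ∉ insert u T0 := by
        simp only [Finset.mem_insert, not_or]; exact ⟨Ne.symm hu.1, hT0⟩
      rw [Finset.insert_comm u v T0, cn_in v z hvu, smul_smul, smul_smul, sgn_ne hu.1 hu.2 hT0]
      congr 1
      ring
    rw [Finset.sum_congr rfl h1, ← Finset.smul_sum]
    have h2 : ∑ u ∈ T0ᶜ.erase v, sg u T0 • z (insert u T0) = - (sg v T0 • z (insert v T0)) := by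
      linarith
    rw [h2, smul_neg, neg_smul, neg_neg, smul_smul, sg_mul_self, one_smul]
  · rw [bd_apply]
    have hvc : v ∈ Tᶜ := by simpa using hv
    rw [← Finset.add_sum_erase _ _ hvc, cn_in v z hv, smul_smul, sg_mul_self, one_smul]
    rw [Finset.sum_eq_zero, add_zero]
    intro u hu
    simp only [Finset.mem_erase, Finset.mem_compl] at hu
    rw [cn_out v z (by simp only [Finset.mem_insert, not_or]; exact ⟨Ne.symm hu.1, hv⟩), smul_zero]

theorem cn_mem {G : SimpleGraph V} {A : Set V} {v : V} (hv : v ∈ A) (hA : ∀ x ∈ A, x ≠ v → G.Adj v x)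
    {i : ℕ} {z : Finset V → ℝ} (hz : z ∈ KK G (triv V) A ∅ i) : cn v z ∈ KK G (triv V) A ∅ (i + 1) := by
  rw [mem_KK_triv] at hz ⊢
  intro T hT
  by_cases hvT : v ∈ T
  · obtain ⟨T0, hT0, rfl⟩ : ∃ T0, v ∉ T0 ∧ T = insert v T0 :=
      ⟨T.erase v, Finset.notMem_erase _ _, (Finset.insert_erase hvT).symm⟩
    rw [cn_in v z hT0, hz T0, smul_zero]
    rintro ⟨h1, h2, h3⟩
    apply hT
    refine ⟨(clique_insert_iff hT0).2 ⟨h1, fun y hy => hA y (h2 hy) (fun e => hT0 (e ▸ hy))⟩, ?_, ?_⟩
    · intro x hx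
      rcases Finset.mem_insert.1 (Finset.mem_coe.1 hx) with rfl | hx
      · exact hv
      · exact h2 hx
    · rw [Finset.card_insert_of_notMem hT0, h3]
  · exact cn_out v z hvT

theorem t_CONE0 : S_CONE0 := by
  intro V _ _ G A v hv hA i
  have h : ZZ G (triv V) A ∅ i ≤ BB G (triv V) A ∅ i := by
    intro z hz
    have h1 : z ∈ KK G (triv V) A ∅ i := hz.1
    have h2 : bd ℝ z = 0 := hz.2
    exact ⟨cn v z, cn_mem hv hA h1, bd_cn v z h2⟩
  unfold beta
  have h3 := Submodule.finrank_mono h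
  omega

end Pool.Agent.E8helper63.CM
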